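import Pool.Agent.H59.L.S8.Helper165.Psi

set_option autoImplicit false

open Polynomial DirectSum HomogeneousLocalization AlgebraicGeometry CategoryTheory

universe u v

namespace Pool.Agent.Helper165

variable {A : Type u} [CommRing A] (J : Ideal A)

/-- The blowup of `Spec A` in the ideal `J`. -/
noncomputable def blow : Scheme.{u} := Proj (reesPiece J)

/-- the map from `A` to the degree zero part, as a morphism -/
noncomputable def toZeroHom : CommRingCat.of A ⟶ CommRingCat.of (reesPiece J 0) :=
  CommRingCat.ofHom (R := A) (S := reesPiece J 0) (toZero J)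

/-- The blowup morphism. -/
noncomputable def blowMap : blow J ⟶ Spec (CommRingCat.of A) :=
  Proj.toSpecZero (reesPiece J) ≫ Spec.map (toZeroHom J)

lemma blowMap_isProper (hJ : J.FG) : IsProper (blowMap J) := by
  have := finiteType_zero J hJ
  have h1 : IsProper (Proj.toSpecZero (reesPiece J)) := inferInstance
  have h2 : IsIso (toZeroHom J) := by
    have : toZeroHom J =
        (RingEquiv.ofBijective (toZero J) (toZero_bijective J)).toCommRingCatIso.hom := rfl
    rw [this]
    infer_instance
  have h3 : IsIso (Spec.map (toZeroHom J)) := inferInstance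
  have h4 : IsProper (Spec.map (toZeroHom J)) := inferInstance
  unfold blowMap
  exact MorphismProperty.comp_mem @IsProper _ _ h1 h4

section domain

variable [IsDomain A]

/-- the generic point of the blowup -/
noncomputable def blowGeneric (a : A) (ha : a ∈ J) (ha0 : a ≠ 0) :
    ProjectiveSpectrum (reesPiece J) where
  asHomogeneousIdeal := ⊥
  isPrime := by
    change (⊥ : Ideal (reesAlgebra J)).IsPrime
    exact Ideal.isPrime_bot
  not_irrelevant_le := by
    intro h
    have h1 : tElt J a ha ∈ HomogeneousIdeal.irrelevant (reesPiece J) := by
      rw [HomogeneousIdeal.mem_irrelevant_iff, GradedRing.proj_apply,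
        DirectSum.decompose_of_mem_ne (reesPiece J) (tElt_mem J a ha) one_ne_zero]
    have h2 := h h1
    have h3 : tElt J a ha = 0 := by
      have : tElt J a ha ∈ (⊥ : Ideal (reesAlgebra J)) := h2
      simpa using this
    have h4 := congrArg (fun z : reesAlgebra J => (z : A[X]).coeff 1) h3
    simp [tElt, reesMon] at h4
    exact ha0 h4

lemma blow_irreducible (a : A) (ha : a ∈ J) (ha0 : a ≠ 0) : IrreducibleSpace (blow J) := by
  have h : closure ({blowGeneric J a ha ha0} : Set (ProjectiveSpectrum (reesPiece J))) =
      Set.univ := by
    rw [Set.eq_univ_iff_forall]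
    intro x
    rw [← ProjectiveSpectrum.le_iff_mem_closure, ← ProjectiveSpectrum.as_ideal_le_as_ideal]
    exact bot_le
  have h2 : IsIrreducible (Set.univ : Set (blow J)) := by
    change IsIrreducible (Set.univ : Set (ProjectiveSpectrum (reesPiece J)))
    rw [← h]
    exact isIrreducible_singleton.closure
  exact (irreducibleSpace_def _).2 h2

lemma homLoc_reduced (x : Submonoid (reesAlgebra J)) (hx : x ≤ nonZeroDivisors (reesAlgebra J)) :
    _root_.IsReduced (HomogeneousLocalization (reesPiece J) x) := by
  have hdom : IsDomain (Localization x) := IsLocalization.isDomain_localization hx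
  let F : HomogeneousLocalization (reesPiece J) x →+* Localization x := algebraMap _ _
  have hinj2 : Function.Injective F := by
    intro a b hab
    apply HomogeneousLocalization.val_injective
    exact hab
  exact isReduced_of_injective F hinj2

lemma blow_reduced : IsReduced (blow J) := by
  have : ∀ x : Proj (reesPiece J), _root_.IsReduced ((Proj (reesPiece J)).presheaf.stalk x) := by
    intro x
    have hprime : x.asHomogeneousIdeal.toIdeal.IsPrime := x.isPrime
    have h1 : _root_.IsReduced (AtPrime (reesPiece J) x.asHomogeneousIdeal.toIdeal) :=
      homLoc_reduced J _ (Ideal.primeCompl_le_nonZeroDivisors _)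
    exact isReduced_of_injective (Proj.stalkIso (reesPiece J) x).hom.hom
      (Proj.stalkIso (reesPiece J) x).commRingCatIsoToRingEquiv.injective
  exact isReduced_of_isReduced_stalk (Proj (reesPiece J))

lemma blow_integral (a : A) (ha : a ∈ J) (ha0 : a ≠ 0) : IsIntegral (blow J) := by
  have := blow_irreducible J a ha ha0
  have := blow_reduced J
  exact isIntegral_of_irreducibleSpace_of_isReduced _

end domain

end Pool.Agent.Helper165
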