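import Pool.Agent.H59.L.S8.Helper165.Defs
import Pool.Agent.H59.L.S8.Helper165.Inv

set_option autoImplicit false

open MvPolynomial

universe u

namespace Pool.Agent.Helper165

section Basic

variable (p : ℕ) (k : Type u) [Field k]

lemma act_X0 (j : Fin p) : act (jordanSum p k) (X (0, j)) = X (0, j) + X (1, j) := by
  unfold act jordanSum
  rw [aeval_X, Fintype.sum_prod_type]
  simp [Matrix.blockDiagonal_apply, Fin.sum_univ_two]

lemma act_X1 (j : Fin p) : act (jordanSum p k) (X (1, j)) = X (1, j) := by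
  unfold act jordanSum
  rw [aeval_X, Fintype.sum_prod_type]
  simp [Matrix.blockDiagonal_apply, Fin.sum_univ_two]

lemma mem_invariantRing {b : MvPolynomial (Fin 2 × Fin p) k} :
    b ∈ invariantRing p k ↔ act (jordanSum p k) b = b := by
  unfold invariantRing
  rw [AlgHom.mem_equalizer]
  rfl

/-- The polynomial `u_ij = x_i y_j - x_j y_i`. -/
noncomputable def uPol (i j : Fin p) : MvPolynomial (Fin 2 × Fin p) k :=
  X (1, i) * X (0, j) - X (1, j) * X (0, i)

/-- The polynomial `N_i = y_i ^ p - x_i ^ (p - 1) y_i`. -/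
noncomputable def nPol (i : Fin p) : MvPolynomial (Fin 2 × Fin p) k :=
  X (0, i) ^ p - X (1, i) ^ (p - 1) * X (0, i)

lemma x_mem (i : Fin p) : (X (1, i) : MvPolynomial (Fin 2 × Fin p) k) ∈ invariantRing p k := by
  rw [mem_invariantRing, act_X1]

lemma u_mem (i j : Fin p) : uPol p k i j ∈ invariantRing p k := by
  rw [mem_invariantRing]
  unfold uPol
  simp only [map_sub, map_mul, act_X0, act_X1]
  ring

lemma n_mem [hp : Fact p.Prime] [CharP k p] (i : Fin p) : nPol p k i ∈ invariantRing p k := by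
  rw [mem_invariantRing]
  unfold nPol
  simp only [map_sub, map_mul, map_pow, act_X0, act_X1]
  have : ExpChar (MvPolynomial (Fin 2 × Fin p) k) p := ExpChar.prime hp.out
  rw [add_pow_char, mul_add, ← pow_succ, Nat.sub_add_cancel hp.out.pos]
  ring

/-- `x_i` as an invariant. -/
noncomputable def xA (i : Fin p) : invariantRing p k := ⟨X (1, i), x_mem p k i⟩

/-- `u_ij` as an invariant. -/
noncomputable def uA (i j : Fin p) : invariantRing p k := ⟨uPol p k i j, u_mem p k i j⟩

/-- `N_i` as an invariant. -/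
noncomputable def nA [Fact p.Prime] [CharP k p] (i : Fin p) : invariantRing p k :=
  ⟨nPol p k i, n_mem p k i⟩

lemma uA_anti (i j : Fin p) : uA p k i j = - uA p k j i := by
  apply Subtype.ext
  simp only [uA, uPol, NegMemClass.coe_neg]
  ring

lemma plucker (i j l : Fin p) :
    xA p k i * uA p k j l - xA p k j * uA p k i l + xA p k l * uA p k i j = 0 := by
  apply Subtype.ext
  simp only [xA, uA, uPol, Subalgebra.coe_add, Subalgebra.coe_sub, Subalgebra.coe_mul,
    ZeroMemClass.coe_zero]
  ring

lemma norm_rel [hp : Fact p.Prime] [CharP k p] (i j : Fin p) :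
    xA p k i ^ p * nA p k j - xA p k j ^ p * nA p k i =
      uA p k i j ^ p - (xA p k i * xA p k j) ^ (p - 1) * uA p k i j := by
  apply Subtype.ext
  simp only [xA, uA, nA, nPol, uPol, Subalgebra.coe_sub, Subalgebra.coe_mul, Subalgebra.coe_pow]
  have : ExpChar (MvPolynomial (Fin 2 × Fin p) k) p := ExpChar.prime hp.out
  rw [sub_pow_char]
  obtain ⟨m, hm⟩ : ∃ m, p = m + 1 := ⟨p - 1, (Nat.sub_add_cancel hp.out.pos).symm⟩
  have hm' : p - 1 = m := by omega
  rw [hm']
  have key : ∀ a b c d : MvPolynomial (Fin 2 × Fin p) k,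
      a ^ (m + 1) * (b ^ (m + 1) - c ^ m * b) - c ^ (m + 1) * (d ^ (m + 1) - a ^ m * d) =
      (a * b) ^ (m + 1) - (c * d) ^ (m + 1) - (a * c) ^ m * (a * b - c * d) := by
    intro a b c d
    ring
  rw [← hm] at key
  exact key _ _ _ _

/-- The ideal `J = (x_i, u_ij)` of the ring of invariants. -/
noncomputable def idealJ : Ideal (invariantRing p k) :=
  Ideal.span (Set.range (xA p k) ∪ Set.range (fun ij : Fin p × Fin p => uA p k ij.1 ij.2))

lemma xA_mem_J (i : Fin p) : xA p k i ∈ idealJ p k :=
  Ideal.subset_span (Or.inl ⟨i, rfl⟩)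

lemma uA_mem_J (i j : Fin p) : uA p k i j ∈ idealJ p k :=
  Ideal.subset_span (Or.inr ⟨(i, j), rfl⟩)

lemma idealJ_fg : (idealJ p k).FG := by
  unfold idealJ
  exact Submodule.fg_span ((Set.finite_range _).union (Set.finite_range _))

end Basic

/-- The coordinates of the `i`-th chart, in a field in which elements `x_j`, `u_jl`, `N_j`
are given. -/
def coord {K : Type*} [Field K] {p : ℕ} (x : Fin p → K) (w : Fin p → Fin p → K) (n : Fin p → K)
    (i : Fin p) : Fin 2 × Fin p → K :=
  fun a => if a.2 = i then (if a.1 = 1 then x i else n i)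
    else (if a.1 = 1 then x a.2 / x i else w i a.2 / x i)

end Pool.Agent.Helper165
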