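import Pool.Agent.H59.L.S8.Helper165.Chart

set_option autoImplicit false

open MvPolynomial

universe u

namespace Pool.Agent.Helper165

variable (p : ℕ) (k : Type u) [Field k]

/-- The polynomial ring `k[V]`. -/
abbrev PR := MvPolynomial (Fin 2 × Fin p) k

/-- The field of rational functions on `V`. -/
abbrev LF := FractionRing (PR p k)

/-- coordinates of the `i`-th chart in the fraction field of `k[V]` -/
noncomputable def tL (i : Fin p) : Fin 2 × Fin p → LF p k :=
  coord (fun j => algebraMap (PR p k) (LF p k) (X (1, j)))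
    (fun j l => algebraMap (PR p k) (LF p k) (uPol p k j l))
    (fun j => algebraMap (PR p k) (LF p k) (nPol p k j)) i

lemma tL_1i (i : Fin p) : tL p k i (1, i) = algebraMap (PR p k) (LF p k) (X (1, i)) := by
  simp [tL, coord]

lemma tL_0i (i : Fin p) : tL p k i (0, i) = algebraMap (PR p k) (LF p k) (nPol p k i) := by
  simp [tL, coord]

lemma tL_1j {i j : Fin p} (h : j ≠ i) : tL p k i (1, j) =
    algebraMap (PR p k) (LF p k) (X (1, j)) / algebraMap (PR p k) (LF p k) (X (1, i)) := by
  simp [tL, coord, h]

lemma tL_0j {i j : Fin p} (h : j ≠ i) : tL p k i (0, j) =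
    algebraMap (PR p k) (LF p k) (uPol p k i j) / algebraMap (PR p k) (LF p k) (X (1, i)) := by
  simp [tL, coord, h]

lemma algebraMap_X_ne_zero (a : Fin 2 × Fin p) :
    algebraMap (PR p k) (LF p k) (X a) ≠ 0 := by
  intro h
  have h2 := (map_eq_zero_iff _ (IsFractionRing.injective (PR p k) (LF p k))).1 h
  exact MvPolynomial.X_ne_zero a h2

/-- `k[V] → D[Y]` -/
noncomputable def phi (i : Fin p) : PR p k →ₐ[k] Polynomial (PR p k) :=
  aeval (fun a => if a.2 = i then
      (if a.1 = 1 then Polynomial.C (X (1, i)) else Polynomial.X)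
    else (if a.1 = 1 then Polynomial.C (X (1, i) * X (1, a.2))
      else Polynomial.C (X (0, a.2)) + Polynomial.C (X (1, a.2)) * Polynomial.X))

lemma fin2 (a : Fin 2) : a = 0 ∨ a = 1 := by
  fin_cases a <;> simp

lemma phi_act (i : Fin p) (b : PR p k) :
    phi p k i (act (jordanSum p k) b) =
      (phi p k i b).comp (Polynomial.X + Polynomial.C (X (1, i))) := by
  have h : ((phi p k i).comp (act (jordanSum p k))).toRingHom =
      (Polynomial.compRingHom (Polynomial.X + Polynomial.C (X (1, i)))).comp
        (phi p k i).toRingHom := by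
    apply MvPolynomial.ringHom_ext
    · intro c
      simp only [AlgHom.toRingHom_eq_coe, RingHom.coe_comp, RingHom.coe_coe, AlgHom.coe_comp,
        Function.comp_apply, Polynomial.coe_compRingHom]
      rw [← MvPolynomial.algebraMap_eq, AlgHom.commutes, AlgHom.commutes,
        Polynomial.algebraMap_apply, Polynomial.C_comp]
    · rintro ⟨a, j⟩
      simp only [AlgHom.toRingHom_eq_coe, RingHom.coe_comp, RingHom.coe_coe, AlgHom.coe_comp,
        Function.comp_apply, Polynomial.coe_compRingHom]
      rcases fin2 a with rfl | rfl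
      · rw [act_X0, map_add]
        by_cases h : j = i
        · subst h
          simp [phi]
        · simp [phi, h]
          ring
      · rw [act_X1]
        by_cases h : j = i
        · subst h
          simp [phi]
        · simp [phi, h]
  have := congrArg (fun f => f b) h
  simpa using this

/-- `D[Y] → L` -/
noncomputable def eps (i : Fin p) : Polynomial (PR p k) →+* LF p k :=
  Polynomial.eval₂RingHom (aeval (tL p k i) : PR p k →ₐ[k] LF p k).toRingHom
    (algebraMap (PR p k) (LF p k) (X (0, i)))

lemma eps_phi (i : Fin p) (b : PR p k) :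
    eps p k i (phi p k i b) = algebraMap (PR p k) (LF p k) b := by
  have h : (eps p k i).comp (phi p k i).toRingHom = algebraMap (PR p k) (LF p k) := by
    have hx : algebraMap (PR p k) (LF p k) (X (1, i)) ≠ 0 := algebraMap_X_ne_zero p k _
    apply MvPolynomial.ringHom_ext
    · intro c
      simp only [AlgHom.toRingHom_eq_coe, RingHom.coe_comp, RingHom.coe_coe, Function.comp_apply]
      rw [← MvPolynomial.algebraMap_eq, AlgHom.commutes, Polynomial.algebraMap_apply]
      simp only [eps, Polynomial.coe_eval₂RingHom, Polynomial.eval₂_C, AlgHom.toRingHom_eq_coe,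
        RingHom.coe_coe, AlgHom.commutes]
      rw [IsScalarTower.algebraMap_apply k (PR p k) (LF p k)]
    · rintro ⟨a, j⟩
      simp only [AlgHom.toRingHom_eq_coe, RingHom.coe_comp, RingHom.coe_coe, Function.comp_apply]
      rcases fin2 a with rfl | rfl
      · by_cases h : j = i
        · subst h
          simp [phi, eps]
        · simp [phi, eps, h, tL_0j p k h, tL_1j p k h, uPol]
          field_simp
          ring
      · by_cases h : j = i
        · subst h
          simp [phi, eps, tL_1i]
        · simp [phi, eps, h, tL_1j p k h, tL_1i]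
          field_simp
  exact congrArg (fun f => f b) h

lemma invariant_mem_chart [hp : Fact p.Prime] [CharP k p] (i : Fin p) {b : PR p k}
    (hb : b ∈ invariantRing p k) :
    algebraMap (PR p k) (LF p k) b ∈ (aeval (tL p k i) : PR p k →ₐ[k] LF p k).range := by
  rw [mem_invariantRing] at hb
  have h1 := phi_act p k i b
  rw [hb] at h1
  have hx : (X (1, i) : PR p k) ≠ 0 := MvPolynomial.X_ne_zero _
  obtain ⟨Q, hQ⟩ := exists_comp_asPoly p (X (1, i) : PR p k) hx _ (phi p k i b)
    (Nat.lt_succ_self _) h1.symm
  rw [← eps_phi p k i b, hQ]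
  have h2 : eps p k i (asPoly p (X (1, i))) = tL p k i (0, i) := by
    rw [tL_0i]
    simp only [asPoly, eps, nPol, Polynomial.coe_eval₂RingHom, Polynomial.eval₂_sub,
      Polynomial.eval₂_pow, Polynomial.eval₂_X, Polynomial.eval₂_mul, Polynomial.eval₂_C]
    simp [tL_1i]
  have h3 : ∀ Q : Polynomial (PR p k), eps p k i (Q.comp (asPoly p (X (1, i)))) ∈
      (aeval (tL p k i) : PR p k →ₐ[k] LF p k).range := by
    intro Q
    induction Q using Polynomial.induction_on' with
    | add f g hf hg =>
      rw [Polynomial.add_comp, map_add]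
      exact Subalgebra.add_mem _ hf hg
    | monomial n a =>
      rw [← Polynomial.C_mul_X_pow_eq_monomial, Polynomial.mul_comp, Polynomial.C_comp,
        Polynomial.pow_comp, Polynomial.X_comp, map_mul, map_pow, h2]
      refine Subalgebra.mul_mem _ ?_ (Subalgebra.pow_mem _ ?_ _)
      · refine ⟨a, ?_⟩
        simp [eps]
      · exact ⟨X (0, i), by simp⟩
  exact h3 Q


/-- The chart algebra `k[x_i, x_j / x_i, u_ij / x_i, N_i]` -/
noncomputable abbrev chartAlg (i : Fin p) : Subalgebra k (LF p k) :=
  (aeval (tL p k i) : PR p k →ₐ[k] LF p k).range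

lemma tL_mem (i : Fin p) (a : Fin 2 × Fin p) : tL p k i a ∈ chartAlg p k i :=
  ⟨X a, by simp⟩

lemma x_div_mem (i j : Fin p) : algebraMap (PR p k) (LF p k) (X (1, j)) /
    algebraMap (PR p k) (LF p k) (X (1, i)) ∈ chartAlg p k i := by
  by_cases h : j = i
  · subst h
    rw [div_self (algebraMap_X_ne_zero p k _)]
    exact Subalgebra.one_mem _
  · rw [← tL_1j p k h]
    exact tL_mem p k i _

lemma ui_div_mem (i j : Fin p) : algebraMap (PR p k) (LF p k) (uPol p k i j) /
    algebraMap (PR p k) (LF p k) (X (1, i)) ∈ chartAlg p k i := by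
  by_cases h : j = i
  · subst h
    have : uPol p k j j = 0 := by unfold uPol; ring
    rw [this, map_zero, zero_div]
    exact Subalgebra.zero_mem _
  · rw [← tL_0j p k h]
    exact tL_mem p k i _

lemma u_div_mem (i j l : Fin p) : algebraMap (PR p k) (LF p k) (uPol p k j l) /
    algebraMap (PR p k) (LF p k) (X (1, i)) ∈ chartAlg p k i := by
  have hx : algebraMap (PR p k) (LF p k) (X (1, i)) ≠ 0 := algebraMap_X_ne_zero p k _
  have h : algebraMap (PR p k) (LF p k) (uPol p k j l) /
    algebraMap (PR p k) (LF p k) (X (1, i)) =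
      (algebraMap (PR p k) (LF p k) (X (1, j)) / algebraMap (PR p k) (LF p k) (X (1, i))) *
      (algebraMap (PR p k) (LF p k) (uPol p k i l) / algebraMap (PR p k) (LF p k) (X (1, i))) -
      (algebraMap (PR p k) (LF p k) (X (1, l)) / algebraMap (PR p k) (LF p k) (X (1, i))) *
      (algebraMap (PR p k) (LF p k) (uPol p k i j) / algebraMap (PR p k) (LF p k) (X (1, i))) := by
    unfold uPol
    simp only [map_sub, map_mul]
    field_simp
    ring
  rw [h]
  exact Subalgebra.sub_mem _ (Subalgebra.mul_mem _ (x_div_mem p k i j) (ui_div_mem p k i l))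
    (Subalgebra.mul_mem _ (x_div_mem p k i l) (ui_div_mem p k i j))

/-- elements of `J`, divided by `x_i`, are in the chart algebra -/
lemma J_div_mem [hp : Fact p.Prime] [CharP k p] (i : Fin p) {b : invariantRing p k}
    (hb : b ∈ idealJ p k) :
    algebraMap (PR p k) (LF p k) (b : PR p k) / algebraMap (PR p k) (LF p k) (X (1, i)) ∈
      chartAlg p k i := by
  unfold idealJ at hb
  induction hb using Submodule.span_induction with
  | mem b hb =>
    rcases hb with ⟨j, rfl⟩ | ⟨⟨j, l⟩, rfl⟩
    · exact x_div_mem p k i j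
    · exact u_div_mem p k i j l
  | zero => simp
  | add b c _ _ hb hc =>
    rw [Subalgebra.coe_add, map_add, add_div]
    exact Subalgebra.add_mem _ hb hc
  | smul a b _ hb =>
    rw [smul_eq_mul, Subalgebra.coe_mul, map_mul, mul_div_assoc]
    exact Subalgebra.mul_mem _ (invariant_mem_chart p k i a.2) hb

/-- elements of `J ^ n`, divided by `x_i ^ n`, are in the chart algebra -/
lemma Jpow_div_mem [hp : Fact p.Prime] [CharP k p] (i : Fin p) (n : ℕ) {b : invariantRing p k}
    (hb : b ∈ idealJ p k ^ n) :
    algebraMap (PR p k) (LF p k) (b : PR p k) / algebraMap (PR p k) (LF p k) (X (1, i)) ^ n ∈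
      chartAlg p k i := by
  induction n generalizing b with
  | zero =>
    rw [pow_zero, div_one]
    exact invariant_mem_chart p k i b.2
  | succ n ih =>
    rw [pow_succ] at hb
    induction hb using Submodule.smul_induction_on' with
    | smul a ha c hc =>
      rw [smul_eq_mul, Subalgebra.coe_mul, map_mul, pow_succ, mul_div_mul_comm]
      exact Subalgebra.mul_mem _ (ih ha) (J_div_mem p k i hc)
    | add a _ c _ ha hc =>
      rw [Subalgebra.coe_add, map_add, add_div]
      exact Subalgebra.add_mem _ ha hc

/-- each chart coordinate is a quotient `b / x_i ^ n` with `b` in `J ^ n` -/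
lemma tL_eq_div [hp : Fact p.Prime] [CharP k p] (i : Fin p) (a : Fin 2 × Fin p) :
    ∃ (n : ℕ) (b : invariantRing p k), b ∈ idealJ p k ^ n ∧
      tL p k i a = algebraMap (PR p k) (LF p k) (b : PR p k) /
        algebraMap (PR p k) (LF p k) (X (1, i)) ^ n := by
  obtain ⟨a, j⟩ := a
  rcases fin2 a with rfl | rfl
  · by_cases h : j = i
    · subst h
      exact ⟨0, nA p k j, by simp, by rw [tL_0i, pow_zero, div_one]; rfl⟩
    · exact ⟨1, uA p k i j, by rw [pow_one]; exact uA_mem_J p k i j,
        by rw [tL_0j p k h, pow_one]; rfl⟩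
  · by_cases h : j = i
    · subst h
      exact ⟨0, xA p k j, by simp, by rw [tL_1i, pow_zero, div_one]; rfl⟩
    · exact ⟨1, xA p k j, by rw [pow_one]; exact xA_mem_J p k j,
        by rw [tL_1j p k h, pow_one]; rfl⟩

/-- The coordinate functions are a transcendence basis of `k(V)`. -/
lemma basisL : IsTranscendenceBasis k
    (algebraMap (PR p k) (LF p k) ∘ (X : Fin 2 × Fin p → PR p k)) := by
  have : Algebra.IsAlgebraic (PR p k) (LF p k) := IsLocalization.isAlgebraic _ (nonZeroDivisors _)
  exact (IsTranscendenceBasis.mvPolynomial (Fin 2 × Fin p) k).algebraMap_comp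

lemma alg_L [hp : Fact p.Prime] (i : Fin p) :
    Algebra.IsAlgebraic (Algebra.adjoin k (Set.range (tL p k i))) (LF p k) := by
  set S := Algebra.adjoin k (Set.range (tL p k i)) with hS
  have hmem : ∀ a, tL p k i a ∈ S := fun a => Algebra.subset_adjoin ⟨a, rfl⟩
  have halg : ∀ z : LF p k, z ∈ S → IsAlgebraic S z := by
    intro z hz
    exact isAlgebraic_algebraMap (⟨z, hz⟩ : S)
  have hx0 : algebraMap (PR p k) (LF p k) (X (1, i)) ≠ 0 := algebraMap_X_ne_zero p k _
  have hxi : algebraMap (PR p k) (LF p k) (X (1, i)) ∈ S := by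
    rw [← tL_1i]; exact hmem _
  have hyi : IsAlgebraic S (algebraMap (PR p k) (LF p k) (X (0, i))) := by
    have hNi : algebraMap (PR p k) (LF p k) (nPol p k i) ∈ S := by
      rw [← tL_0i]; exact hmem _
    set xi : S := ⟨_, hxi⟩ with hxidef
    set ni : S := ⟨_, hNi⟩ with hnidef
    obtain ⟨hmon, hdeg⟩ := asPoly_monic (D := S) p xi
    have hmon2 : (asPoly (D := S) p xi - Polynomial.C ni).Monic := by
      apply hmon.sub_of_left
      refine lt_of_le_of_lt Polynomial.degree_C_le ?_
      rw [Polynomial.degree_eq_natDegree hmon.ne_zero, hdeg]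
      exact_mod_cast hp.out.pos
    refine ⟨_, hmon2.ne_zero, ?_⟩
    have e1 : algebraMap S (LF p k) xi = algebraMap (PR p k) (LF p k) (X (1, i)) := rfl
    have e2 : algebraMap S (LF p k) ni = algebraMap (PR p k) (LF p k) (nPol p k i) := rfl
    simp only [asPoly, map_sub, map_mul, map_pow, Polynomial.aeval_X, Polynomial.aeval_C, e1, e2,
      nPol, sub_self]
  rw [(basisL p k).isAlgebraic_iff]
  rintro ⟨a, j⟩
  rcases fin2 a with rfl | rfl
  · by_cases h : j = i
    · subst h
      exact hyi
    · have : algebraMap (PR p k) (LF p k) (X (0, j)) =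
          tL p k i (0, j) + tL p k i (1, j) * algebraMap (PR p k) (LF p k) (X (0, i)) := by
        rw [tL_0j p k h, tL_1j p k h]
        unfold uPol
        simp only [map_sub, map_mul]
        field_simp
        ring
      rw [Function.comp_apply, this]
      exact (halg _ (hmem _)).add ((halg _ (hmem _)).mul hyi)
  · apply halg
    by_cases h : j = i
    · subst h
      exact hxi
    · have : algebraMap (PR p k) (LF p k) (X (1, j)) = tL p k i (1, j) *
          algebraMap (PR p k) (LF p k) (X (1, i)) := by
        rw [tL_1j p k h]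
        field_simp
      rw [Function.comp_apply, this]
      exact S.mul_mem (hmem _) hxi

/-- The coordinates of the `i`-th chart are algebraically independent. -/
lemma tL_algebraicIndependent [hp : Fact p.Prime] (i : Fin p) :
    AlgebraicIndependent k (tL p k i) := by
  have := alg_L p k i
  refine (Algebra.IsAlgebraic.isTranscendenceBasis_of_lift_le_trdeg_of_finite k (tL p k i) ?_).1
  have h := (basisL p k).lift_cardinalMk_eq_trdeg
  exact h.le

lemma aeval_tL_injective [hp : Fact p.Prime] (i : Fin p) :
    Function.Injective (aeval (tL p k i) : PR p k →ₐ[k] LF p k) :=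
  tL_algebraicIndependent p k i

end Pool.Agent.Helper165
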