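import Pool.Agent.H59.L.S8.Helper165.Chart2
import Pool.Agent.H59.L.S8.Helper165.Blow
import Pool.Agent.H59.L.S8.Helper165.StdSmooth

set_option autoImplicit false

open MvPolynomial HomogeneousLocalization

universe u

namespace Pool.Agent.Helper165

variable (p : ℕ) (k : Type u) [Field k]

/-- The ring of invariants inside the field of rational functions on `V`. -/
noncomputable def gL : invariantRing p k →+* LF p k :=
  (algebraMap (PR p k) (LF p k)).comp (invariantRing p k).val.toRingHom

lemma gL_apply (b : invariantRing p k) : gL p k b = algebraMap (PR p k) (LF p k) (b : PR p k) := rfl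

lemma gL_injective : Function.Injective (gL p k) := by
  intro a b h
  apply Subtype.ext
  exact IsFractionRing.injective (PR p k) (LF p k) h

lemma gL_x_ne_zero (i : Fin p) : gL p k (xA p k i) ≠ 0 := algebraMap_X_ne_zero p k _

/-- The ring of the `i`-th chart of the blowup. -/
abbrev ChartRing (i : Fin p) : Type u :=
  Away (reesPiece (idealJ p k)) (tElt (idealJ p k) (xA p k i) (xA_mem_J p k i))

/-- The embedding of the ring of the `i`-th chart in the field of rational functions on `V`. -/
noncomputable def psiL (i : Fin p) : ChartRing p k i →+* LF p k :=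
  psi (idealJ p k) (gL p k) (xA p k i) (xA_mem_J p k i) (gL_x_ne_zero p k i)

lemma psiL_injective (i : Fin p) : Function.Injective (psiL p k i) :=
  psi_injective _ _ _ _ _ (gL_injective p k)

/-- The map from the ring of invariants to the `i`-th chart ring. -/
noncomputable def toChart (i : Fin p) : invariantRing p k →+* ChartRing p k i :=
  chartMap (idealJ p k) (xA p k i) (xA_mem_J p k i)

lemma psiL_toChart (i : Fin p) (b : invariantRing p k) :
    psiL p k i (toChart p k i b) = gL p k b :=
  psi_chartMap _ _ _ _ _ _

/-- The fraction `b / x_i ^ n` -/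
noncomputable def chartFrac (i : Fin p) (n : ℕ) (b : invariantRing p k)
    (hb : b ∈ idealJ p k ^ n) : ChartRing p k i :=
  frac (idealJ p k) (xA p k i) (xA_mem_J p k i) n b hb

lemma psiL_chartFrac (i : Fin p) (n : ℕ) (b : invariantRing p k)
    (hb : b ∈ idealJ p k ^ n) :
    psiL p k i (chartFrac p k i n b hb) = gL p k b / gL p k (xA p k i) ^ n :=
  psi_frac _ _ _ _ _ _ _ _

lemma exists_chartFrac (i : Fin p) (z : ChartRing p k i) :
    ∃ (n : ℕ) (b : invariantRing p k) (hb : b ∈ idealJ p k ^ n), z = chartFrac p k i n b hb :=
  exists_frac _ _ _ z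

/-- The `k`-algebra structure of the chart ring. -/
noncomputable instance chartAlgebra (i : Fin p) : Algebra k (ChartRing p k i) :=
  ((toChart p k i).comp (algebraMap k (invariantRing p k))).toAlgebra

lemma chart_algebraMap (i : Fin p) (c : k) :
    (algebraMap k (ChartRing p k i) : k →+* ChartRing p k i) c =
      toChart p k i (algebraMap k (invariantRing p k) c) := rfl

variable [hp : Fact p.Prime] [CharP k p]

lemma exists_coord (i : Fin p) (a : Fin 2 × Fin p) :
    ∃ z : ChartRing p k i, psiL p k i z = tL p k i a := by
  obtain ⟨n, b, hb, h⟩ := tL_eq_div p k i a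
  exact ⟨chartFrac p k i n b hb, by rw [psiL_chartFrac, h]; rfl⟩

/-- The coordinates of the `i`-th chart. -/
noncomputable def tC (i : Fin p) (a : Fin 2 × Fin p) : ChartRing p k i :=
  (exists_coord p k i a).choose

lemma psiL_tC (i : Fin p) (a : Fin 2 × Fin p) : psiL p k i (tC p k i a) = tL p k i a :=
  (exists_coord p k i a).choose_spec

lemma psiL_aeval (i : Fin p) (q : PR p k) :
    psiL p k i (aeval (tC p k i) q) = aeval (tL p k i) q := by
  have h : (psiL p k i).comp (aeval (tC p k i) : PR p k →ₐ[k] ChartRing p k i).toRingHom =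
      (aeval (tL p k i) : PR p k →ₐ[k] LF p k).toRingHom := by
    apply MvPolynomial.ringHom_ext
    · intro c
      simp only [AlgHom.toRingHom_eq_coe, RingHom.coe_comp, RingHom.coe_coe, Function.comp_apply]
      rw [← MvPolynomial.algebraMap_eq, AlgHom.commutes, AlgHom.commutes, chart_algebraMap,
        psiL_toChart, gL_apply, IsScalarTower.algebraMap_apply k (PR p k) (LF p k)]
      rfl
    · intro a
      simp [psiL_tC]
  exact congrArg (fun f => f q) h

lemma tC_bijective (i : Fin p) :
    Function.Bijective (aeval (tC p k i) : PR p k →ₐ[k] ChartRing p k i) := by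
  constructor
  · intro a b h
    apply aeval_tL_injective p k i
    rw [← psiL_aeval, ← psiL_aeval, h]
  · intro z
    obtain ⟨n, b, hb, rfl⟩ := exists_chartFrac p k i z
    obtain ⟨q, hq⟩ := Jpow_div_mem p k i n hb
    refine ⟨q, psiL_injective p k i ?_⟩
    rw [psiL_aeval, psiL_chartFrac]
    exact hq

lemma chart_smooth (i : Fin p) :
    Algebra.IsStandardSmoothOfRelativeDimension (2 * p) k (ChartRing p k i) := by
  have h := isStandardSmooth_of_bijective (R := k) (tC p k i) (tC_bijective p k i)
  simpa using h

end Pool.Agent.Helper165
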