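import Pool.Agent.H59.L.S8.Helper165.Geom

set_option autoImplicit false

open HomogeneousLocalization AlgebraicGeometry CategoryTheory TopologicalSpace

universe u

namespace Pool.Agent.Helper165

section general

variable {A : Type u} [CommRing A] (J : Ideal A)

/-- The chart of the blowup attached to an element of the ideal. -/
noncomputable def blowChart (a : A) (ha : a ∈ J) :
    Spec (CommRingCat.of (Away (reesPiece J) (tElt J a ha))) ⟶ blow J :=
  Proj.awayι (reesPiece J) (tElt J a ha) (tElt_mem J a ha) one_pos

instance (a : A) (ha : a ∈ J) : IsOpenImmersion (blowChart J a ha) :=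
  inferInstanceAs (IsOpenImmersion
    (Proj.awayι (reesPiece J) (tElt J a ha) (tElt_mem J a ha) one_pos))

lemma blowChart_opensRange (a : A) (ha : a ∈ J) :
    (blowChart J a ha).opensRange = Proj.basicOpen (reesPiece J) (tElt J a ha) :=
  Proj.opensRange_awayι (reesPiece J) (tElt J a ha) (tElt_mem J a ha) one_pos

lemma blowChart_blowMap (a : A) (ha : a ∈ J) :
    blowChart J a ha ≫ blowMap J = Spec.map (CommRingCat.ofHom (chartMap J a ha)) := by
  unfold blowChart blowMap
  erw [Proj.awayι_toSpecZero_assoc]
  rw [← Spec.map_comp]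
  rfl

/-- `a = b * (a T / b T)` in the chart ring of `b`. -/
lemma chartMap_eq_mul (a b : A) (ha : a ∈ J) (hb : b ∈ J) :
    chartMap J b hb a = chartMap J b hb b *
      Away.isLocalizationElem (tElt_mem J b hb) (tElt_mem J a ha) := by
  apply HomogeneousLocalization.val_injective
  rw [HomogeneousLocalization.val_mul, Away.val_mk]
  have e : ∀ c : A, (chartMap J b hb c).val =
      Localization.mk (reesMon J 0 c (by simp)) 1 := fun c => rfl
  rw [e, e, Localization.mk_mul, Localization.mk_eq_mk_iff, Localization.r_iff_exists]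
  refine ⟨1, ?_⟩
  simp only [pow_one, OneMemClass.coe_one, one_mul]
  apply Subtype.ext
  simp only [tElt, reesMon, Subalgebra.coe_mul]
  simp only [Polynomial.monomial_mul_monomial]

lemma mem_basicOpen_of_blowMap_mem (y : blow J) (a : A) (ha : a ∈ J)
    (hy : blowMap J y ∈ PrimeSpectrum.basicOpen a) :
    y ∈ Proj.basicOpen (reesPiece J) (tElt J a ha) := by
  obtain ⟨b, hb, hyb⟩ : ∃ (b : A) (hb : b ∈ J), tElt J b hb ∉
      ProjectiveSpectrum.asHomogeneousIdeal (𝒜 := reesPiece J) y := by
    by_contra hcon
    apply not_all_mem J y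
    intro b hb
    by_contra h
    exact hcon ⟨b, hb, h⟩
  have h1 : y ∈ (blowChart J b hb).opensRange := by
    rw [blowChart_opensRange]
    exact hyb
  obtain ⟨z, rfl⟩ := h1
  have h2 : (blowChart J b hb ≫ blowMap J) z ∈ PrimeSpectrum.basicOpen a := hy
  rw [blowChart_blowMap] at h2
  have h3 : chartMap J b hb a ∉ z.asIdeal := h2
  rw [chartMap_eq_mul J a b ha hb] at h3
  have h4 : Away.isLocalizationElem (tElt_mem J b hb) (tElt_mem J a ha) ∉ z.asIdeal :=
    fun h => h3 (Ideal.mul_mem_left _ _ h)
  have h5 := Proj.awayι_preimage_basicOpen (reesPiece J) (f := tElt J b hb) (tElt_mem J b hb)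
    one_pos (g := tElt J a ha) (tElt_mem J a ha) one_pos
  have h6 : z ∈ (Proj.awayι (reesPiece J) (tElt J b hb) (tElt_mem J b hb) one_pos) ⁻¹ᵁ
      Proj.basicOpen (reesPiece J) (tElt J a ha) := by
    rw [h5]
    exact h4
  exact h6

lemma frac_mul (a : A) (ha : a ∈ J) (n : ℕ) (b : A) (hb : b ∈ J ^ n) :
    frac J a ha n b hb * chartMap J a ha a ^ n = chartMap J a ha b := by
  apply HomogeneousLocalization.val_injective
  rw [HomogeneousLocalization.val_mul, HomogeneousLocalization.val_pow, frac, Away.val_mk]
  have e : ∀ c : A, (chartMap J a ha c).val =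
      Localization.mk (reesMon J 0 c (by simp)) 1 := fun c => rfl
  rw [e, e, Localization.mk_pow, Localization.mk_mul, Localization.mk_eq_mk_iff,
    Localization.r_iff_exists]
  refine ⟨1, ?_⟩
  simp only [one_pow, OneMemClass.coe_one, one_mul, mul_one]
  apply Subtype.ext
  simp only [tElt, reesMon, Subalgebra.coe_mul, Subalgebra.coe_pow]
  simp only [Polynomial.monomial_mul_monomial, Polynomial.monomial_pow, zero_mul, one_mul,
    add_zero]
  rw [mul_comm]

/-- After inverting `a`, the map from `A` to the chart ring of `a ∈ J` is bijective. -/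
lemma awayMap_bijective [IsDomain A] (a : A) (ha : a ∈ J) (ha0 : a ≠ 0) :
    Function.Bijective (Localization.awayMap (chartMap J a ha) a) := by
  have hinj : Function.Injective (chartMap J a ha) := by
    have hga : algebraMap A (FractionRing A) a ≠ 0 := by
      intro h
      exact ha0 ((map_eq_zero_iff _ (IsFractionRing.injective A (FractionRing A))).1 h)
    have h := psi_chartMap J (algebraMap A (FractionRing A)) a ha hga
    intro b c hbc
    apply IsFractionRing.injective A (FractionRing A)
    rw [← h b, ← h c, hbc]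
  constructor
  · exact IsLocalization.map_injective_of_injective (Submonoid.powers a) _ _ hinj
  · intro w
    obtain ⟨m, z, hz⟩ := IsLocalization.Away.surj (chartMap J a ha a) w
    obtain ⟨n, b, hb, h⟩ := exists_frac J a ha z
    have h1 : z * chartMap J a ha a ^ n = chartMap J a ha b := by
      rw [h]; exact frac_mul J a ha n b hb
    refine ⟨IsLocalization.mk' (Localization.Away a) b
      (⟨a ^ (m + n), m + n, rfl⟩ : Submonoid.powers a), ?_⟩
    set α : Away (reesPiece J) (tElt J a ha) →+* Localization.Away (chartMap J a ha a) :=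
      algebraMap _ _ with hα
    have hu : IsUnit (α (chartMap J a ha a)) := IsLocalization.Away.algebraMap_isUnit _
    have hmap : ∀ c : A, Localization.awayMap (chartMap J a ha) a
        (algebraMap A (Localization.Away a) c) = α (chartMap J a ha c) := by
      intro c
      exact IsLocalization.map_eq _ c
    apply (hu.pow (m + n)).mul_right_cancel
    have h2 : IsLocalization.mk' (Localization.Away a) b
        (⟨a ^ (m + n), m + n, rfl⟩ : Submonoid.powers a) *
        algebraMap A (Localization.Away a) a ^ (m + n) = algebraMap A _ b := by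
      rw [← map_pow]
      exact IsLocalization.mk'_spec _ _ _
    have h3 := congrArg (Localization.awayMap (chartMap J a ha) a) h2
    rw [map_mul, map_pow, hmap, hmap] at h3
    rw [h3, pow_add, ← mul_assoc, hz, ← map_pow, ← map_mul, h1]

lemma isIso_blowMap_restrict [IsDomain A] (a : A) (ha : a ∈ J) (ha0 : a ≠ 0) :
    IsIso (blowMap J ∣_ (PrimeSpectrum.basicOpen a : (Spec (CommRingCat.of A)).Opens)) := by
  set U : (Spec (CommRingCat.of A)).Opens := PrimeSpectrum.basicOpen a with hU
  have h1 : IsIso (Spec.map (CommRingCat.ofHom (chartMap J a ha)) ∣_ U) := by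
    have e := SpecMapRestrictBasicOpenIso (CommRingCat.ofHom (chartMap J a ha)) a
    have h := (MorphismProperty.isomorphisms Scheme.{u}).arrow_mk_iso_iff e
    rw [MorphismProperty.isomorphisms.iff, MorphismProperty.isomorphisms.iff] at h
    rw [h]
    have h' : IsIso (CommRingCat.ofHom (Localization.awayMap (chartMap J a ha) a)) :=
      (RingEquiv.ofBijective _ (awayMap_bijective J a ha ha0)).toCommRingCatIso.isIso_hom
    exact inferInstanceAs
      (IsIso (Spec.map (CommRingCat.ofHom (Localization.awayMap (chartMap J a ha) a))))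
  have h2 : IsIso (blowChart J a ha ∣_ (blowMap J ⁻¹ᵁ U)) := by
    rw [isIso_iff_isOpenImmersion_and_surjective]
    refine ⟨inferInstance, ⟨?_⟩⟩
    intro y
    have hy : y.1 ∈ blowMap J ⁻¹ᵁ U := y.2
    have hy2 : y.1 ∈ (blowChart J a ha).opensRange := by
      rw [blowChart_opensRange]
      exact mem_basicOpen_of_blowMap_mem J y.1 a ha hy
    obtain ⟨z, hz⟩ := hy2
    refine ⟨⟨z, ?_⟩, ?_⟩
    · change blowChart J a ha z ∈ blowMap J ⁻¹ᵁ U
      rw [hz]
      exact hy
    · apply Subtype.ext
      exact (morphismRestrict_base_coe (blowChart J a ha) _ _).trans hz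
  have h3 := morphismRestrict_comp (blowChart J a ha) (blowMap J) U
  have h4 : IsIso ((blowChart J a ha ≫ blowMap J) ∣_ U) := by
    rw [blowChart_blowMap]
    exact h1
  rw [h3] at h4
  exact @IsIso.of_isIso_comp_left _ _ _ _ _ (blowChart J a ha ∣_ (blowMap J ⁻¹ᵁ U))
    (blowMap J ∣_ U) h2 h4

end general

end Pool.Agent.Helper165
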